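import Mathlib
import Pool.Prelude.Def_F_f983ba18

/-!
# 1-separated sequences: comparison with the primes
-/

set_option autoImplicit false

namespace Pool.Agent.NH50.E951

open Filter Finset N44b300f8
open scoped ENNReal Topology

/-- the logarithm of an Euler factor -/
noncomputable def F (s t : ℝ) : ℝ := -Real.log (1 - t ^ (-s))

theorem pw {s t : ℝ} (hs : 0 < s) (ht : 1 < t) : 0 < t ^ (-s) ∧ t ^ (-s) < 1 :=
  ⟨Real.rpow_pos_of_pos (by linarith) _, Real.rpow_lt_one_of_one_lt_of_neg ht (by linarith)⟩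

theorem F_lt {s t u : ℝ} (hs : 0 < s) (ht : 1 < t) (h : t < u) : F s u < F s t := by
  unfold F
  have h1 := pw hs ht
  have h3 : u ^ (-s) < t ^ (-s) := Real.rpow_lt_rpow_of_neg (by linarith) h (by linarith)
  have h4 := Real.log_lt_log (show 0 < 1 - t ^ (-s) by linarith) (show 1 - t ^ (-s) < 1 - u ^ (-s) by linarith)
  linarith

theorem F_le {s t u : ℝ} (hs : 0 < s) (ht : 1 < t) (h : t ≤ u) : F s u ≤ F s t := by
  rcases h.lt_or_eq with h | h
  · exact (F_lt hs ht h).le
  · rw [h]

theorem F_ge {s t : ℝ} (hs : 0 < s) (ht : 1 < t) : t ^ (-s) ≤ F s t := by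
  unfold F
  have h1 := pw hs ht
  have h2 := Real.log_le_sub_one_of_pos (show 0 < 1 - t ^ (-s) by linarith)
  linarith

theorem F_pos {s t : ℝ} (hs : 0 < s) (ht : 1 < t) : 0 < F s t :=
  lt_of_lt_of_le (pw hs ht).1 (F_ge hs ht)

theorem half {s t : ℝ} (hs : 1 ≤ s) (ht : 2 ≤ t) : t ^ (-s) ≤ 1 / 2 := by
  have h0 : (0 : ℝ) < t := by linarith
  calc t ^ (-s) ≤ t ^ (-(1 : ℝ)) := Real.rpow_le_rpow_of_exponent_le (by linarith) (by linarith)
    _ = t⁻¹ := Real.rpow_neg_one t
    _ ≤ 1 / 2 := by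
      rw [one_div]
      exact inv_anti₀ (by norm_num) ht

theorem F_up {s t : ℝ} (hs : 1 ≤ s) (ht : 2 ≤ t) : F s t ≤ 2 * t ^ (-s) := by
  have h1 := pw (show 0 < s by linarith) (show 1 < t by linarith)
  have h2 := half hs ht
  unfold F
  have h3 := Real.one_sub_inv_le_log_of_pos (show 0 < 1 - t ^ (-s) by linarith)
  have h4 : (1 - t ^ (-s))⁻¹ ≤ 1 + 2 * t ^ (-s) := by
    rw [inv_le_comm₀ (by linarith) (by linarith), inv_le_iff_one_le_mul₀ (by linarith)]
    nlinarith
  linarith

/-- the zeta function -/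
noncomputable def Z (s : ℝ) : ℝ := ∑' n : ℕ, (n : ℝ) ^ (-s)

theorem Z_sum {s : ℝ} (hs : 1 < s) : Summable (fun n : ℕ => (n : ℝ) ^ (-s)) :=
  Real.summable_nat_rpow.2 (by linarith)

/-- exponent vectors -/
noncomputable def phi {m : ℕ} (p : Fin m → ℕ) : ℕ →₀ ℕ := ∑ i : Fin m, Finsupp.single i.val (p i)

theorem phi_apply {m : ℕ} (p : Fin m → ℕ) (i : Fin m) : phi p i.val = p i := by
  unfold phi
  rw [Finsupp.finsetSum_apply, Finset.sum_eq_single i]
  · simp
  · intro b _ hb
    rw [Finsupp.single_apply, if_neg]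
    intro h
    exact hb (Fin.ext h)
  · intro h
    exact absurd (mem_univ i) h

theorem phi_inj {m : ℕ} {p q : Fin m → ℕ} (h : phi p = phi q) : p = q := by
  funext i
  rw [← phi_apply p i, h, phi_apply]

theorem N_phi (a : ℕ → ℝ) {m : ℕ} (p : Fin m → ℕ) :
    beurlingInteger a (phi p) = ∏ i : Fin m, a i.val ^ p i := by
  unfold phi
  rw [beurlingInteger_def, ← Finsupp.prod_finsetSum_index]
  · refine prod_congr rfl fun i _ => ?_
    rw [Finsupp.prod_single_index]
    exact pow_zero _
  · intro i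
    exact pow_zero _
  · intro i k l
    exact pow_add _ _ _

theorem N_single (a : ℕ → ℝ) (i : ℕ) : beurlingInteger a (Finsupp.single i 1) = a i := by
  rw [beurlingInteger_def, Finsupp.prod_single_index]
  · exact pow_one _
  · exact pow_zero _

theorem N_zero (a : ℕ → ℝ) : beurlingInteger a 0 = 1 := by
  rw [beurlingInteger_def, Finsupp.prod_zero_index]

theorem ge_two {a : ℕ → ℝ} (h0 : 1 < a 0) (hm : StrictMono a) (hs : Erdos951Prop a) (i : ℕ) :
    (i : ℝ) + 2 ≤ a i := by
  have key : ∀ i j : ℕ, i ≠ j → |a i - a j| ≥ 1 := by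
    intro i j hij
    have h := hs (Finsupp.single i 1) (Finsupp.single j 1) (by
      intro h
      have h2 := (Finsupp.single_left_inj (one_ne_zero)).1 h
      exact hij h2)
    rw [N_single, N_single] at h
    exact h
  induction i with
  | zero =>
    have h := hs (Finsupp.single 0 1) 0 (by simp)
    rw [N_single, N_zero, abs_of_pos (by linarith)] at h
    push_cast
    linarith
  | succ i ih =>
    have h := key (i + 1) i (by omega)
    have h1 := hm (show i < i + 1 by omega)
    rw [abs_of_pos (by linarith)] at h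
    push_cast
    linarith

/-- the finite Euler products are at most zeta -/
theorem prod_le {a : ℕ → ℝ} (h0 : 1 < a 0) (hm : StrictMono a) (hsep : Erdos951Prop a) {s : ℝ}
    (hs : 1 < s) (m : ℕ) : ∏ i : Fin m, (1 - a i.val ^ (-s))⁻¹ ≤ Z s := by
  have ha : ∀ i, 1 < a i := fun i => by
    have := ge_two h0 hm hsep i
    have h : (0 : ℝ) ≤ i := Nat.cast_nonneg i
    linarith
  have key : ∀ K : ℕ, ∏ i : Fin m, ∑ j ∈ range K, (a i.val ^ (-s)) ^ j ≤ Z s := by
    intro K
    rw [prod_univ_sum]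
    have e1 : ∀ p ∈ Fintype.piFinset (fun _ : Fin m => range K),
        ∏ i : Fin m, (a i.val ^ (-s)) ^ p i ≤ ((⌊beurlingInteger a (phi p)⌋₊ : ℕ) : ℝ) ^ (-s) := by
      intro p _
      have e2 : ∏ i : Fin m, (a i.val ^ (-s)) ^ p i = (beurlingInteger a (phi p)) ^ (-s) := by
        rw [N_phi, ← Real.finsetProd_rpow _ _ (fun i _ => by have := ha i.val; positivity)]
        refine prod_congr rfl fun i _ => ?_
        have := ha i.val
        rw [← Real.rpow_natCast, ← Real.rpow_natCast, ← Real.rpow_mul (by linarith),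
          ← Real.rpow_mul (by linarith), mul_comm]
      rw [e2]
      have h1 : 1 ≤ beurlingInteger a (phi p) := by
        rw [N_phi]
        calc (1 : ℝ) = ∏ _i : Fin m, (1 : ℝ) := by rw [prod_const_one]
          _ ≤ ∏ i : Fin m, a i.val ^ p i :=
            prod_le_prod (fun _ _ => zero_le_one) fun i _ => one_le_pow₀ (ha i.val).le
      refine Real.rpow_le_rpow_of_nonpos ?_ (Nat.floor_le (by linarith)) (by linarith)
      exact_mod_cast Nat.floor_pos.2 h1
    refine (sum_le_sum e1).trans ?_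
    have hinj : Set.InjOn (fun p : Fin m → ℕ => ⌊beurlingInteger a (phi p)⌋₊)
        (Fintype.piFinset (fun _ : Fin m => range K) : Set (Fin m → ℕ)) := by
      intro p _ q _ h
      by_contra hpq
      have h1 := hsep (phi p) (phi q) fun h => hpq (phi_inj h)
      have h2 : 0 ≤ beurlingInteger a (phi p) := by
        rw [N_phi]
        exact prod_nonneg fun i _ => by have := ha i.val; positivity
      have h3 : 0 ≤ beurlingInteger a (phi q) := by
        rw [N_phi]
        exact prod_nonneg fun i _ => by have := ha i.val; positivity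
      have h4 := Nat.floor_le h2
      have h5 := Nat.lt_floor_add_one (beurlingInteger a (phi p))
      have h6 := Nat.floor_le h3
      have h7 := Nat.lt_floor_add_one (beurlingInteger a (phi q))
      dsimp only at h
      rw [h] at h4 h5
      have h8 : |beurlingInteger a (phi p) - beurlingInteger a (phi q)| < 1 := by
        rw [abs_lt]
        constructor <;> linarith
      linarith
    rw [← sum_image (g := fun p : Fin m → ℕ => ⌊beurlingInteger a (phi p)⌋₊)
      (f := fun n : ℕ => (n : ℝ) ^ (-s)) hinj]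
    exact (Z_sum hs).sum_le_tsum _ fun n _ => by positivity
  have hlim : Tendsto (fun K : ℕ => ∏ i : Fin m, ∑ j ∈ range K, (a i.val ^ (-s)) ^ j) atTop
      (𝓝 (∏ i : Fin m, (1 - a i.val ^ (-s))⁻¹)) := by
    refine tendsto_finsetProd _ fun i _ => ?_
    have h := pw (show 0 < s by linarith) (ha i.val)
    exact (hasSum_geometric_of_lt_one h.1.le h.2).tendsto_sum_nat
  exact le_of_tendsto' hlim key

theorem sum_F_le {a : ℕ → ℝ} (h0 : 1 < a 0) (hm : StrictMono a) (hsep : Erdos951Prop a) {s : ℝ}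
    (hs : 1 < s) (m : ℕ) : ∑ i ∈ range m, F s (a i) ≤ Real.log (Z s) := by
  have ha : ∀ i, 1 < a i := fun i => by
    have := ge_two h0 hm hsep i
    have h : (0 : ℝ) ≤ i := Nat.cast_nonneg i
    linarith
  have h1 := prod_le h0 hm hsep hs m
  have h2 : ∀ i : Fin m, 0 < (1 - a i.val ^ (-s))⁻¹ := fun i => by
    have := pw (show 0 < s by linarith) (ha i.val)
    exact inv_pos.2 (by linarith)
  have h3 := Real.log_le_log (prod_pos fun i _ => h2 i) h1
  rw [Real.log_prod (fun i _ => (h2 i).ne')] at h3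
  rw [← Fin.sum_univ_eq_sum_range (fun i => F s (a i)) m]
  refine le_trans (le_of_eq ?_) h3
  refine sum_congr rfl fun i _ => ?_
  unfold F
  rw [Real.log_inv]

/-- the primes -/
noncomputable def q (i : ℕ) : ℕ := Nat.nth Nat.Prime i

theorem q_prime (i : ℕ) : (q i).Prime := Nat.prime_nth_prime i

theorem q_mono : StrictMono q := Nat.nth_strictMono Nat.infinite_setOfPred_prime

theorem q_ge (i : ℕ) : i + 2 ≤ q i := by
  induction i with
  | zero => exact (q_prime 0).two_le
  | succ i ih =>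
    have := q_mono (show i < i + 1 by omega)
    omega

theorem Z_hom (s : ℝ) (hs : 1 < s) : ∃ f : ℕ →*₀ ℝ, ∀ n, f n = (n : ℝ) ^ (-s) := by
  refine ⟨⟨⟨fun n => (n : ℝ) ^ (-s), ?_⟩, ?_, ?_⟩, fun n => rfl⟩
  · rw [Nat.cast_zero]
    exact Real.zero_rpow (by linarith)
  · show ((1 : ℕ) : ℝ) ^ (-s) = 1
    rw [Nat.cast_one]
    exact Real.one_rpow _
  · intro x y
    show ((x * y : ℕ) : ℝ) ^ (-s) = (x : ℝ) ^ (-s) * (y : ℝ) ^ (-s)
    rw [Nat.cast_mul, Real.mul_rpow (Nat.cast_nonneg _) (Nat.cast_nonneg _)]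

theorem Z_pos {s : ℝ} (hs : 1 < s) : 0 < Z s :=
  (Z_sum hs).tsum_pos (fun n => by positivity) 1 (by norm_num)

theorem logZ_le {s : ℝ} (hs : 1 < s) :
    ENNReal.ofReal (Real.log (Z s)) ≤ ∑' i, ENNReal.ofReal (F s (q i)) := by
  by_cases htop : ∑' i, ENNReal.ofReal (F s (q i)) = ∞
  · rw [htop]
    exact le_top
  obtain ⟨f, hf⟩ := Z_hom s hs
  have hsum : Summable (fun n => ‖f n‖) := by
    refine (Z_sum hs).congr fun n => ?_
    rw [hf, Real.norm_of_nonneg (by positivity)]
  have h1 := EulerProduct.eulerProduct_completely_multiplicative hsum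
  have e1 : ∑' n, f n = Z s := by
    unfold Z
    exact tsum_congr hf
  rw [e1] at h1
  refine ENNReal.ofReal_le_of_le_toReal ?_
  rw [Real.log_le_iff_le_exp (Z_pos hs)]
  refine le_of_tendsto' h1 fun n => ?_
  have h2 : ∀ p ∈ Nat.primesBelow n, (1 - f p)⁻¹ = Real.exp (F s p) := by
    intro p hp
    have hp2 := (Nat.prime_of_mem_primesBelow hp).one_lt
    have h3 := pw (show 0 < s by linarith) (show (1 : ℝ) < p by exact_mod_cast hp2)
    unfold F
    rw [hf, Real.exp_neg, Real.exp_log (by linarith)]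
  rw [prod_congr rfl h2, ← Real.exp_sum]
  refine Real.exp_le_exp.2 ?_
  have h4 : ENNReal.ofReal (∑ p ∈ Nat.primesBelow n, F s p) ≤
      ∑' i, ENNReal.ofReal (F s (q i)) := by
    rw [ENNReal.ofReal_sum_of_nonneg]
    · have h5 : Nat.primesBelow n ⊆ (range (Nat.primeCounting' n)).image q := by
        intro p hp
        rw [Nat.mem_primesBelow] at hp
        rw [mem_image]
        refine ⟨Nat.count Nat.Prime p, ?_, Nat.nth_count hp.2⟩
        rw [mem_range]
        exact Nat.count_strict_mono hp.2 hp.1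
      refine (sum_le_sum_of_subset h5).trans ?_
      rw [sum_image (fun x _ y _ h => q_mono.injective h)]
      exact ENNReal.sum_le_tsum _
    · intro p hp
      have hp2 := (Nat.prime_of_mem_primesBelow hp).one_lt
      exact (F_pos (show 0 < s by linarith) (show (1 : ℝ) < p by exact_mod_cast hp2)).le
  exact (ENNReal.ofReal_le_iff_le_toReal htop).1 h4

theorem primes_fin {s : ℝ} (hs : 1 < s) : ∑' i, ENNReal.ofReal (F s (q i)) ≠ ∞ := by
  have h1 : Summable (fun i => 2 * ((q i : ℕ) : ℝ) ^ (-s)) :=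
    ((Z_sum hs).comp_injective q_mono.injective).mul_left 2
  have h2 : Summable (fun i => F s (q i)) := by
    refine Summable.of_nonneg_of_le (fun i => ?_) (fun i => ?_) h1
    · exact (F_pos (by linarith) (by exact_mod_cast (q_prime i).one_lt)).le
    · exact F_up hs.le (by exact_mod_cast (q_prime i).two_le)
  exact h2.tsum_ofReal_ne_top

/-- the main comparison -/
theorem main_cmp {a : ℕ → ℝ} (h0 : 1 < a 0) (hm : StrictMono a) (hsep : Erdos951Prop a) {s : ℝ}
    (hs : 1 < s) : ∑' i, ENNReal.ofReal (F s (a i)) ≤ ∑' i, ENNReal.ofReal (F s (q i)) := by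
  have ha : ∀ i, 1 < a i := fun i => by
    have := ge_two h0 hm hsep i
    have h : (0 : ℝ) ≤ i := Nat.cast_nonneg i
    linarith
  refine le_trans ?_ (logZ_le hs)
  refine ENNReal.tsum_le_of_sum_range_le fun m => ?_
  rw [← ENNReal.ofReal_sum_of_nonneg fun i _ => (F_pos (by linarith) (ha i)).le]
  exact ENNReal.ofReal_le_ofReal (sum_F_le h0 hm hsep hs m)

end Pool.Agent.NH50.E951
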