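import Pool.Agent.NH50.E951.A

/-!
# 1-separated sequences: Abel summation and the theorems
-/

set_option autoImplicit false

namespace Pool.Agent.NH50.E951

open Filter Finset N44b300f8
open scoped ENNReal Topology

/-- the number of terms at most `x` -/
noncomputable def cnt (b : ℕ → ℝ) (x : ℝ) : ℕ := {i : ℕ | b i ≤ x}.ncard

theorem lt_cnt {b : ℕ → ℝ} (hm : StrictMono b) (hb : ∀ i : ℕ, (i : ℝ) + 2 ≤ b i) (x : ℝ) (i : ℕ) :
    i < cnt b x ↔ b i ≤ x := by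
  classical
  have hex : ∃ m, ¬ b m ≤ x := by
    obtain ⟨m, hm⟩ := exists_nat_gt x
    exact ⟨m, by have := hb m; intro h; linarith⟩
  have hS : {i : ℕ | b i ≤ x} = ((range (Nat.find hex) : Finset ℕ) : Set ℕ) := by
    ext j
    rw [Finset.mem_coe, mem_range, Set.mem_ofPred_eq]
    constructor
    · intro hj
      by_contra h
      exact Nat.find_spec hex ((hm.monotone (not_lt.1 h)).trans hj)
    · intro hj
      exact not_not.1 (Nat.find_min hex hj)
  have hc : cnt b x = Nat.find hex := by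
    unfold cnt
    rw [hS, Set.ncard_coe_finset, card_range]
  rw [hc]
  have h2 : i ∈ {i : ℕ | b i ≤ x} ↔ i < Nat.find hex := by
    rw [hS, Finset.mem_coe, mem_range]
  exact h2.symm

theorem qr_mono : StrictMono (fun i => (q i : ℝ)) := fun _ _ h => Nat.cast_lt.2 (q_mono h)

theorem qr_ge (i : ℕ) : (i : ℝ) + 2 ≤ (q i : ℝ) := by exact_mod_cast q_ge i

theorem cnt_q (x : ℝ) (hx : 0 ≤ x) : cnt (fun i => (q i : ℝ)) x = Nat.primeCounting ⌊x⌋₊ := by
  have key : ∀ i : ℕ, i < cnt (fun i => (q i : ℝ)) x ↔ i < Nat.primeCounting ⌊x⌋₊ := by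
    intro i
    rw [lt_cnt qr_mono qr_ge, ← Nat.le_floor_iff hx]
    unfold Nat.primeCounting Nat.primeCounting' q
    rw [← not_iff_not, not_le, not_lt, Nat.count_le_iff_le_nth Nat.infinite_setOfPred_prime]
    exact Nat.lt_iff_add_one_le
  refine le_antisymm ?_ ?_
  · by_contra h
    exact absurd ((key _).1 (not_le.1 h)) (lt_irrefl _)
  · by_contra h
    exact absurd ((key _).2 (not_le.1 h)) (lt_irrefl _)

theorem tel (G : ℕ → ℝ) (hG : ∀ n, 2 ≤ n → G (n + 1) ≤ G n) (hG0 : Tendsto G atTop (𝓝 0)) (c : ℕ)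
    (hc : 2 ≤ c) : ∑' n, (if c ≤ n then ENNReal.ofReal (G n - G (n + 1)) else 0) =
      ENNReal.ofReal (G c) := by
  have h1 : ∀ n, 0 ≤ (if c ≤ n then G n - G (n + 1) else 0) := by
    intro n
    split_ifs with h
    · have := hG n (hc.trans h)
      linarith
    · exact le_rfl
  have h2 : HasSum (fun n => if c ≤ n then G n - G (n + 1) else 0) (G c) := by
    rw [hasSum_iff_tendsto_nat_of_nonneg h1]
    have h3 : ∀ M, c ≤ M → ∑ n ∈ range M, (if c ≤ n then G n - G (n + 1) else 0) = G c - G M := by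
      intro M hM
      induction M, hM using Nat.le_induction with
      | base =>
        rw [sub_self]
        refine sum_eq_zero fun n hn => ?_
        rw [mem_range] at hn
        rw [if_neg (by omega)]
      | succ M hM ih =>
        rw [sum_range_succ, ih, if_pos hM]
        ring
    have h4 : Tendsto (fun M => G c - G M) atTop (𝓝 (G c)) := by
      have := (tendsto_const_nhds (x := G c)).sub hG0
      rwa [sub_zero] at this
    refine h4.congr' ?_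
    filter_upwards [eventually_ge_atTop c] with M hM
    exact (h3 M hM).symm
  rw [← h2.tsum_eq, ENNReal.ofReal_tsum_of_nonneg h1 h2.summable]
  refine tsum_congr fun n => ?_
  split_ifs
  · rfl
  · rw [ENNReal.ofReal_zero]

/-- summation by parts -/
theorem abel (G : ℕ → ℝ) (hG : ∀ n, 2 ≤ n → G (n + 1) ≤ G n) (hG0 : Tendsto G atTop (𝓝 0))
    {b : ℕ → ℝ} (hm : StrictMono b) (hb : ∀ i : ℕ, (i : ℝ) + 2 ≤ b i) :
    ∑' n : ℕ, ENNReal.ofReal (G n - G (n + 1)) * (cnt b n : ℝ≥0∞) =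
      ∑' i, ENNReal.ofReal (G ⌈b i⌉₊) := by
  have h2 : ∀ i, 2 ≤ ⌈b i⌉₊ := by
    intro i
    have h := hb i
    have h' : (0 : ℝ) ≤ i := Nat.cast_nonneg i
    have : 1 < ⌈b i⌉₊ := Nat.lt_ceil.2 (by push_cast; linarith)
    omega
  have e1 : ∀ i, ENNReal.ofReal (G ⌈b i⌉₊) =
      ∑' n, (if ⌈b i⌉₊ ≤ n then ENNReal.ofReal (G n - G (n + 1)) else 0) :=
    fun i => (tel G hG hG0 _ (h2 i)).symm
  rw [tsum_congr e1, ENNReal.tsum_comm]
  refine tsum_congr fun n => ?_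
  rw [tsum_eq_sum (s := range (cnt b n))]
  · have e2 : ∀ i ∈ range (cnt b n), (if ⌈b i⌉₊ ≤ n then ENNReal.ofReal (G n - G (n + 1)) else 0) =
        ENNReal.ofReal (G n - G (n + 1)) := by
      intro i hi
      rw [mem_range, lt_cnt hm hb] at hi
      rw [if_pos (Nat.ceil_le.2 hi)]
    rw [sum_congr rfl e2, sum_const, card_range, nsmul_eq_mul, mul_comm]
  · intro i hi
    rw [mem_range, lt_cnt hm hb] at hi
    rw [if_neg fun h => hi (Nat.ceil_le.1 h)]

theorem F_anti_nat {s : ℝ} (hs : 0 < s) (n : ℕ) (hn : 2 ≤ n) :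
    F s ((n + 1 : ℕ) : ℝ) < F s (n : ℝ) := by
  refine F_lt hs ?_ ?_
  · exact_mod_cast hn
  · push_cast
    linarith

theorem F_tendsto {s : ℝ} (hs : 1 ≤ s) : Tendsto (fun n : ℕ => F s (n : ℝ)) atTop (𝓝 0) := by
  have h1 : Tendsto (fun n : ℕ => 2 * (n : ℝ) ^ (-s)) atTop (𝓝 0) := by
    have := ((tendsto_rpow_neg_atTop (show 0 < s by linarith)).comp
      tendsto_natCast_atTop_atTop).const_mul 2
    rwa [mul_zero] at this
  refine squeeze_zero' ?_ ?_ h1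
  · filter_upwards [eventually_ge_atTop 2] with n hn
    exact (F_pos (by linarith) (by exact_mod_cast hn)).le
  · filter_upwards [eventually_ge_atTop 2] with n hn
    exact F_up hs (by exact_mod_cast hn)

theorem abel_q {s : ℝ} (hs : 1 ≤ s) :
    ∑' n : ℕ, ENNReal.ofReal (F s n - F s ((n + 1 : ℕ) : ℝ)) * (cnt (fun i => (q i : ℝ)) n : ℝ≥0∞) =
      ∑' i, ENNReal.ofReal (F s (q i)) := by
  rw [abel (fun n => F s (n : ℝ)) (fun n hn => (F_anti_nat (by linarith) n hn).le) (F_tendsto hs)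
    qr_mono qr_ge]
  refine tsum_congr fun i => ?_
  rw [Nat.ceil_natCast]

section

variable {a : ℕ → ℝ} (h0 : 1 < a 0) (hm : StrictMono a) (hsep : Erdos951Prop a)
include h0 hm hsep

theorem abel_a {s : ℝ} (hs : 1 ≤ s) :
    ∑' n : ℕ, ENNReal.ofReal (F s n - F s ((n + 1 : ℕ) : ℝ)) * (cnt a n : ℝ≥0∞) =
      ∑' i, ENNReal.ofReal (F s (⌈a i⌉₊ : ℝ)) :=
  abel (fun n => F s (n : ℝ)) (fun n hn => (F_anti_nat (by linarith) n hn).le) (F_tendsto hs)
    hm (ge_two h0 hm hsep)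

theorem gt_one (i : ℕ) : 1 < a i := by
  have := ge_two h0 hm hsep i
  have h : (0 : ℝ) ≤ i := Nat.cast_nonneg i
  linarith

theorem ceil_le_F {s : ℝ} (hs : 0 < s) (i : ℕ) : F s (⌈a i⌉₊ : ℝ) ≤ F s (a i) :=
  F_le hs (gt_one h0 hm hsep i) (Nat.le_ceil _)

theorem weighted {s : ℝ} (hs : 1 < s) :
    ∑' n : ℕ, ENNReal.ofReal (F s n - F s ((n + 1 : ℕ) : ℝ)) * (cnt a n : ℝ≥0∞) ≤
    ∑' n : ℕ, ENNReal.ofReal (F s n - F s ((n + 1 : ℕ) : ℝ)) *
      (cnt (fun i => (q i : ℝ)) n : ℝ≥0∞) := by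
  rw [abel_a h0 hm hsep hs.le, abel_q hs.le]
  refine le_trans ?_ (main_cmp h0 hm hsep hs)
  exact ENNReal.tsum_le_tsum fun i =>
    ENNReal.ofReal_le_ofReal (ceil_le_F h0 hm hsep (by linarith) i)

omit h0 hm hsep in
theorem weighted_fin {s : ℝ} (hs : 1 < s) :
    ∑' n : ℕ, ENNReal.ofReal (F s n - F s ((n + 1 : ℕ) : ℝ)) *
      (cnt (fun i => (q i : ℝ)) n : ℝ≥0∞) ≠ ∞ := by
  rw [abel_q hs.le]
  exact primes_fin hs

/-- the primes are the only 1-separated sequence which dominates the primes -/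
theorem rigid (h : ∀ n : ℕ, cnt (fun i => (q i : ℝ)) n ≤ cnt a n) (i : ℕ) : a i = q i := by
  have hs : (1 : ℝ) < 2 := by norm_num
  have hw := weighted h0 hm hsep hs
  have hf := weighted_fin hs
  have hle : ∀ n : ℕ, ENNReal.ofReal (F 2 n - F 2 ((n + 1 : ℕ) : ℝ)) *
      (cnt (fun i => (q i : ℝ)) n : ℝ≥0∞) ≤
      ENNReal.ofReal (F 2 n - F 2 ((n + 1 : ℕ) : ℝ)) * (cnt a n : ℝ≥0∞) :=
    fun n => mul_le_mul_right (Nat.cast_le.2 (h n)) _
  have e1 : ∀ n : ℕ, 2 ≤ n → cnt a n = cnt (fun i => (q i : ℝ)) n := by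
    intro n hn
    by_contra hne
    have hlt : cnt (fun i => (q i : ℝ)) n < cnt a n := lt_of_le_of_ne (h n) (Ne.symm hne)
    have h1 : ENNReal.ofReal (F 2 n - F 2 ((n + 1 : ℕ) : ℝ)) *
        (cnt (fun i => (q i : ℝ)) n : ℝ≥0∞) <
        ENNReal.ofReal (F 2 n - F 2 ((n + 1 : ℕ) : ℝ)) * (cnt a n : ℝ≥0∞) := by
      have h2 := F_anti_nat (show (0 : ℝ) < 2 by norm_num) n hn
      refine (ENNReal.mul_lt_mul_iff_right ?_ ENNReal.ofReal_ne_top).2 (Nat.cast_lt.2 hlt)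
      exact (ENNReal.ofReal_pos.2 (by linarith)).ne'
    exact absurd (ENNReal.tsum_lt_tsum hf hle h1) (not_lt.2 hw)
  have e2 : ∀ i, a i = (⌈a i⌉₊ : ℝ) := by
    intro i
    by_contra hne
    have hlt : a i < (⌈a i⌉₊ : ℝ) := lt_of_le_of_ne (Nat.le_ceil _) hne
    have h1 : ENNReal.ofReal (F 2 (⌈a i⌉₊ : ℝ)) < ENNReal.ofReal (F 2 (a i)) := by
      have h2 := F_lt (show (0 : ℝ) < 2 by norm_num) (gt_one h0 hm hsep i) hlt
      exact (ENNReal.ofReal_lt_ofReal_iff (F_pos (by norm_num) (gt_one h0 hm hsep i))).2 h2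
    have h3 : ∑' i, ENNReal.ofReal (F 2 (⌈a i⌉₊ : ℝ)) ≠ ∞ := by
      rw [← abel_a h0 hm hsep hs.le]
      exact ne_top_of_le_ne_top hf hw
    have h4 := ENNReal.tsum_lt_tsum h3 (fun i => ENNReal.ofReal_le_ofReal
      (ceil_le_F h0 hm hsep (by norm_num : (0 : ℝ) < 2) i)) h1
    have h5 := h4.trans_le (main_cmp h0 hm hsep hs)
    rw [← abel_a h0 hm hsep hs.le, ← abel_q hs.le] at h5
    exact absurd (ENNReal.tsum_le_tsum hle) (not_le.2 h5)
  have key : ∀ n : ℕ, 2 ≤ n → (a i ≤ n ↔ (q i : ℝ) ≤ n) := by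
    intro n hn
    rw [← lt_cnt hm (ge_two h0 hm hsep), ← lt_cnt qr_mono qr_ge, e1 n hn]
  refine le_antisymm ((key (q i) (q_prime i).two_le).2 le_rfl) ?_
  have h5 : 2 ≤ ⌈a i⌉₊ := by
    have h6 := ge_two h0 hm hsep i
    have h' : (0 : ℝ) ≤ i := Nat.cast_nonneg i
    have : 1 < ⌈a i⌉₊ := Nat.lt_ceil.2 (by push_cast; linarith)
    omega
  have h7 := (key ⌈a i⌉₊ h5).1 (Nat.le_ceil _)
  rw [← e2 i] at h7
  exact h7

end

end Pool.Agent.NH50.E951
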