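import Pool.Agent.NH50.E951.B

/-!
# 1-separated sequences: excess over the primes and reciprocal sums
-/

set_option autoImplicit false

namespace Pool.Agent.NH50.E951

open Filter Finset N44b300f8
open scoped ENNReal Topology

theorem cnt_q_small {n : ℕ} (hn : n < 2) : cnt (fun i => (q i : ℝ)) n = 0 := by
  rw [cnt_q n (Nat.cast_nonneg n), Nat.floor_natCast]
  interval_cases n
  · exact Nat.primeCounting_zero
  · exact Nat.primeCounting_one

theorem F_cont {t : ℝ} (ht : 1 < t) : ContinuousAt (fun s => F s t) 1 := by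
  unfold F
  have h1 := pw (show (0 : ℝ) < 1 by norm_num) ht
  refine ContinuousAt.neg (ContinuousAt.log ?_ (by linarith))
  refine continuousAt_const.sub ?_
  exact (Real.continuousAt_const_rpow (by linarith)).comp continuousAt_neg

theorem u_ge {n : ℕ} (hn : 2 ≤ n) : 1 / (n : ℝ) ^ 2 ≤ F 1 n - F 1 ((n + 1 : ℕ) : ℝ) := by
  have hn' : (2 : ℝ) ≤ n := by exact_mod_cast hn
  unfold F
  rw [Real.rpow_neg_one, Real.rpow_neg_one]
  push_cast
  have h1 : 0 < 1 - (n : ℝ)⁻¹ := by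
    have : (n : ℝ)⁻¹ ≤ 2⁻¹ := inv_anti₀ (by norm_num) hn'
    linarith
  have h2 : 0 < 1 - ((n : ℝ) + 1)⁻¹ := by
    have : ((n : ℝ) + 1)⁻¹ ≤ 2⁻¹ := inv_anti₀ (by norm_num) (by linarith)
    linarith
  have e : -Real.log (1 - (n : ℝ)⁻¹) - -Real.log (1 - ((n : ℝ) + 1)⁻¹) =
      -Real.log ((1 - (n : ℝ)⁻¹) / (1 - ((n : ℝ) + 1)⁻¹)) := by
    rw [Real.log_div h1.ne' h2.ne']
    ring
  rw [e]
  have h3 := Real.log_le_sub_one_of_pos (div_pos h1 h2)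
  have h4 : (1 - (n : ℝ)⁻¹) / (1 - ((n : ℝ) + 1)⁻¹) - 1 = -(1 / (n : ℝ) ^ 2) := by
    have h5 : (n : ℝ) ≠ 0 := by linarith
    have h6 : (n : ℝ) + 1 ≠ 0 := by linarith
    have h7 : (1 : ℝ) - ((n : ℝ) + 1)⁻¹ = n / (n + 1) := by
      field_simp
      ring
    rw [h7]
    field_simp
    ring
  linarith

section

variable {a : ℕ → ℝ} (h0 : 1 < a 0) (hm : StrictMono a) (hsep : Erdos951Prop a)
include h0 hm hsep

theorem excess_s {h : ℕ → ℝ} (hh : ∀ n, 0 ≤ h n) {n0 : ℕ} (hn0 : 2 ≤ n0)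
    (H : ∀ n, n0 ≤ n → (cnt (fun i => (q i : ℝ)) n : ℝ) + h n ≤ cnt a n) {s : ℝ} (hs : 1 < s)
    (K : ℕ) :
    ∑ j ∈ range K, (F s ((n0 + j : ℕ) : ℝ) - F s ((n0 + j + 1 : ℕ) : ℝ)) * h (n0 + j) ≤
      ∑ n ∈ range n0, (F s (n : ℝ) - F s ((n + 1 : ℕ) : ℝ)) * (cnt (fun i => (q i : ℝ)) n : ℝ) := by
  have hu : ∀ n : ℕ, 2 ≤ n → 0 ≤ F s (n : ℝ) - F s ((n + 1 : ℕ) : ℝ) := fun n hn => by
    have := F_anti_nat (show 0 < s by linarith) n hn
    linarith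
  obtain ⟨U, hU⟩ : ∃ U : ℕ → ℝ≥0∞, ∀ n, U n = ENNReal.ofReal (F s n - F s ((n + 1 : ℕ) : ℝ)) :=
    ⟨_, fun _ => rfl⟩
  obtain ⟨P, hP⟩ : ∃ P : ℕ → ℝ≥0∞, ∀ n, P n = (cnt (fun i => (q i : ℝ)) n : ℝ≥0∞) :=
    ⟨_, fun _ => rfl⟩
  obtain ⟨g, hg⟩ : ∃ g : ℕ → ℝ≥0∞, ∀ n, g n = if n0 ≤ n then U n * ENNReal.ofReal (h n) else 0 :=
    ⟨_, fun _ => rfl⟩
  obtain ⟨r, hr⟩ : ∃ r : ℕ → ℝ≥0∞, ∀ n, r n = if n < n0 then U n * P n else 0 :=
    ⟨_, fun _ => rfl⟩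
  have hw := weighted h0 hm hsep hs
  have hf := weighted_fin hs
  have e1 : ∀ n, U n * P n + g n ≤ U n * (cnt a n : ℝ≥0∞) + r n := by
    intro n
    rw [hg, hr]
    by_cases hn : n0 ≤ n
    · rw [if_pos hn, if_neg (by omega), add_zero, ← mul_add]
      refine mul_le_mul_right ?_ _
      rw [hP, ← ENNReal.ofReal_natCast, ← ENNReal.ofReal_natCast (cnt a n),
        ← ENNReal.ofReal_add (Nat.cast_nonneg _) (hh n)]
      exact ENNReal.ofReal_le_ofReal (H n hn)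
    · rw [if_neg hn, if_pos (by omega), add_zero]
      exact le_add_self
  have e2 := ENNReal.tsum_le_tsum e1
  rw [ENNReal.tsum_add, ENNReal.tsum_add] at e2
  have e3 : ∑' n, U n * P n = ∑' n : ℕ, ENNReal.ofReal (F s n - F s ((n + 1 : ℕ) : ℝ)) *
      (cnt (fun i => (q i : ℝ)) n : ℝ≥0∞) := tsum_congr fun n => by rw [hU, hP]
  have e4 : ∑' n, U n * (cnt a n : ℝ≥0∞) = ∑' n : ℕ, ENNReal.ofReal (F s n - F s ((n + 1 : ℕ) : ℝ)) *
      (cnt a n : ℝ≥0∞) := tsum_congr fun n => by rw [hU]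
  rw [e3, e4] at e2
  have e5 : ∑' n, g n ≤ ∑' n, r n := by
    have e6 := e2.trans (add_le_add_left hw _)
    exact (ENNReal.add_le_add_iff_left hf).1 e6
  have e7 : ∑' n, r n = ∑ n ∈ range n0, U n * P n := by
    rw [tsum_eq_sum (s := range n0)]
    · exact sum_congr rfl fun n hn => by rw [hr, if_pos (mem_range.1 hn)]
    · intro n hn
      rw [hr, if_neg (by rwa [mem_range] at hn)]
  have e8 : ∑ j ∈ range K, U (n0 + j) * ENNReal.ofReal (h (n0 + j)) ≤ ∑' n, g n := by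
    have e9 : ∑ j ∈ range K, U (n0 + j) * ENNReal.ofReal (h (n0 + j)) =
        ∑ n ∈ (range K).image (fun j => n0 + j), g n := by
      rw [sum_image (fun x _ y _ h => by simpa using h)]
      exact sum_congr rfl fun j _ => by rw [hg, if_pos (by omega)]
    rw [e9]
    exact ENNReal.sum_le_tsum _
  have e10 := (e8.trans e5).trans_eq e7
  have e11 : ∑ j ∈ range K, U (n0 + j) * ENNReal.ofReal (h (n0 + j)) = ENNReal.ofReal
      (∑ j ∈ range K, (F s ((n0 + j : ℕ) : ℝ) - F s ((n0 + j + 1 : ℕ) : ℝ)) * h (n0 + j)) := by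
    rw [ENNReal.ofReal_sum_of_nonneg fun j _ => mul_nonneg (hu _ (by omega)) (hh _)]
    refine sum_congr rfl fun j _ => ?_
    rw [hU, ENNReal.ofReal_mul (hu _ (by omega))]
  have e12 : ∑ n ∈ range n0, U n * P n = ENNReal.ofReal (∑ n ∈ range n0,
      (F s (n : ℝ) - F s ((n + 1 : ℕ) : ℝ)) * (cnt (fun i => (q i : ℝ)) n : ℝ)) := by
    have e13 : ∀ n : ℕ, 0 ≤ (F s (n : ℝ) - F s ((n + 1 : ℕ) : ℝ)) *
        (cnt (fun i => (q i : ℝ)) n : ℝ) ∧ U n * P n = ENNReal.ofReal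
          ((F s (n : ℝ) - F s ((n + 1 : ℕ) : ℝ)) * (cnt (fun i => (q i : ℝ)) n : ℝ)) := by
      intro n
      rw [hP]
      by_cases hn : 2 ≤ n
      · refine ⟨mul_nonneg (hu n hn) (Nat.cast_nonneg _), ?_⟩
        rw [hU, ENNReal.ofReal_mul (hu n hn), ENNReal.ofReal_natCast]
      · rw [cnt_q_small (by omega), Nat.cast_zero, Nat.cast_zero, mul_zero, mul_zero,
          ENNReal.ofReal_zero]
        exact ⟨le_rfl, rfl⟩
    rw [ENNReal.ofReal_sum_of_nonneg fun n _ => (e13 n).1]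
    exact sum_congr rfl fun n _ => (e13 n).2
  rw [e11, e12] at e10
  refine (ENNReal.ofReal_le_ofReal_iff ?_).1 e10
  refine sum_nonneg fun n _ => ?_
  by_cases hn : 2 ≤ n
  · exact mul_nonneg (hu n hn) (Nat.cast_nonneg _)
  · rw [cnt_q_small (by omega), Nat.cast_zero, mul_zero]

theorem excess_one {h : ℕ → ℝ} (hh : ∀ n, 0 ≤ h n) {n0 : ℕ} (hn0 : 2 ≤ n0)
    (H : ∀ n, n0 ≤ n → (cnt (fun i => (q i : ℝ)) n : ℝ) + h n ≤ cnt a n) (K : ℕ) :
    ∑ j ∈ range K, (F 1 ((n0 + j : ℕ) : ℝ) - F 1 ((n0 + j + 1 : ℕ) : ℝ)) * h (n0 + j) ≤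
      ∑ n ∈ range n0, (F 1 (n : ℝ) - F 1 ((n + 1 : ℕ) : ℝ)) * (cnt (fun i => (q i : ℝ)) n : ℝ) := by
  have hc : ∀ n : ℕ, 2 ≤ n → Tendsto (fun s => F s (n : ℝ) - F s ((n + 1 : ℕ) : ℝ)) (𝓝[>] 1)
      (𝓝 (F 1 (n : ℝ) - F 1 ((n + 1 : ℕ) : ℝ))) := by
    intro n hn
    have h1 : (1 : ℝ) < n := by exact_mod_cast hn
    have h2 : (1 : ℝ) < ((n + 1 : ℕ) : ℝ) := by
      push_cast
      linarith
    exact ((F_cont h1).sub (F_cont h2)).tendsto.mono_left nhdsWithin_le_nhds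
  have h1 : Tendsto (fun s => ∑ j ∈ range K, (F s ((n0 + j : ℕ) : ℝ) -
      F s ((n0 + j + 1 : ℕ) : ℝ)) * h (n0 + j)) (𝓝[>] 1) (𝓝 (∑ j ∈ range K,
        (F 1 ((n0 + j : ℕ) : ℝ) - F 1 ((n0 + j + 1 : ℕ) : ℝ)) * h (n0 + j))) :=
    tendsto_finsetSum _ fun j _ => (hc (n0 + j) (by omega)).mul_const _
  have h2 : Tendsto (fun s => ∑ n ∈ range n0, (F s (n : ℝ) - F s ((n + 1 : ℕ) : ℝ)) *
      (cnt (fun i => (q i : ℝ)) n : ℝ)) (𝓝[>] 1) (𝓝 (∑ n ∈ range n0,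
        (F 1 (n : ℝ) - F 1 ((n + 1 : ℕ) : ℝ)) * (cnt (fun i => (q i : ℝ)) n : ℝ))) := by
    refine tendsto_finsetSum _ fun n _ => ?_
    by_cases hn : 2 ≤ n
    · exact (hc n hn).mul_const _
    · rw [cnt_q_small (by omega), Nat.cast_zero, mul_zero]
      simp only [mul_zero]
      exact tendsto_const_nhds
  refine le_of_tendsto_of_tendsto h1 h2 ?_
  filter_upwards [self_mem_nhdsWithin] with s hs
  exact excess_s h0 hm hsep hh hn0 H hs K

/-- the excess over the primes is small on average -/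
theorem excess {h : ℕ → ℝ} (hh : ∀ n, 0 ≤ h n) {n0 : ℕ}
    (H : ∀ n, n0 ≤ n → (cnt (fun i => (q i : ℝ)) n : ℝ) + h n ≤ cnt a n) :
    Summable (fun n : ℕ => h n / (n : ℝ) ^ 2) := by
  have hn0 : 2 ≤ n0 + 2 := by omega
  have H' : ∀ n, n0 + 2 ≤ n → (cnt (fun i => (q i : ℝ)) n : ℝ) + h n ≤ cnt a n :=
    fun n hn => H n (by omega)
  rw [← summable_nat_add_iff (n0 + 2)]
  refine summable_of_sum_range_le (c := ∑ n ∈ range (n0 + 2),
    (F 1 (n : ℝ) - F 1 ((n + 1 : ℕ) : ℝ)) * (cnt (fun i => (q i : ℝ)) n : ℝ))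
    (fun n => div_nonneg (hh _) (by positivity)) fun K => ?_
  refine le_trans (sum_le_sum fun j _ => ?_) (excess_one h0 hm hsep hh hn0 H' K)
  have h1 := u_ge (show 2 ≤ n0 + 2 + j by omega)
  have h2 := mul_le_mul_of_nonneg_right h1 (hh (n0 + 2 + j))
  rw [add_comm j (n0 + 2)]
  refine le_trans (le_of_eq ?_) h2
  ring

end

theorem not_summable_q : ¬ Summable (fun i => 1 / (q i : ℝ)) := by
  intro h
  refine not_summable_one_div_on_primes ?_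
  rw [← Function.Injective.summable_iff q_mono.injective]
  · refine h.congr fun i => ?_
    rw [Function.comp_apply, Set.indicator_of_mem]
    exact q_prime i
  · intro n hn
    rw [Set.indicator_of_notMem]
    intro hp
    exact hn ⟨Nat.count Nat.Prime n, Nat.nth_count hp⟩

theorem not_summable_cnt :
    ¬ Summable (fun n : ℕ => (cnt (fun i => (q i : ℝ)) n : ℝ) / (n : ℝ) ^ 2) := by
  intro h
  have hab := abel (fun n : ℕ => 1 / (n : ℝ)) (fun n hn => by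
    have h2 : (0 : ℝ) < n := by exact_mod_cast (show 0 < n by omega)
    push_cast
    exact one_div_le_one_div_of_le h2 (by linarith)) tendsto_one_div_atTop_nhds_zero_nat
    qr_mono qr_ge
  have h1 : ∑' i, ENNReal.ofReal (1 / ((⌈(q i : ℝ)⌉₊ : ℕ) : ℝ)) ≠ ∞ := by
    rw [← hab]
    refine ne_top_of_le_ne_top h.tsum_ofReal_ne_top (ENNReal.tsum_le_tsum fun n => ?_)
    by_cases hn : n < 2
    · rw [cnt_q_small hn, Nat.cast_zero, mul_zero]
      exact zero_le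
    · rw [← ENNReal.ofReal_natCast, ← ENNReal.ofReal_mul']
      · refine ENNReal.ofReal_le_ofReal ?_
        have h2 : (0 : ℝ) < n := by exact_mod_cast (show 0 < n by omega)
        have h3 : 1 / (n : ℝ) - 1 / ((n + 1 : ℕ) : ℝ) ≤ 1 / (n : ℝ) ^ 2 := by
          push_cast
          rw [div_sub_div _ _ h2.ne' (by positivity), div_le_div_iff₀ (by positivity) (by positivity)]
          nlinarith
        calc (1 / (n : ℝ) - 1 / ((n + 1 : ℕ) : ℝ)) * (cnt (fun i => (q i : ℝ)) n : ℝ)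
            ≤ 1 / (n : ℝ) ^ 2 * (cnt (fun i => (q i : ℝ)) n : ℝ) :=
              mul_le_mul_of_nonneg_right h3 (Nat.cast_nonneg _)
          _ = (cnt (fun i => (q i : ℝ)) n : ℝ) / (n : ℝ) ^ 2 := by ring
      · exact Nat.cast_nonneg _
  refine not_summable_q ?_
  have h3 : ∀ i, 0 ≤ 1 / (q i : ℝ) := fun i => by positivity
  have h4 : ∑' i, ENNReal.ofReal (1 / (q i : ℝ)) ≠ ∞ := by
    refine ne_of_eq_of_ne (tsum_congr fun i => ?_) h1
    rw [Nat.ceil_natCast]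
  have h5 := ENNReal.summable_toReal h4
  refine h5.congr fun i => ?_
  rw [ENNReal.toReal_ofReal (h3 i)]

end Pool.Agent.NH50.E951
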