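import Pool.Agent.NH50.E951.C

/-!
# 1-separated sequences: reciprocal sums
-/

set_option autoImplicit false

namespace Pool.Agent.NH50.E951

open Filter Finset N44b300f8
open scoped ENNReal Topology

theorem Z_le {s : ℝ} (hs : 1 < s) : Z s ≤ 1 + 1 / (s - 1) := by
  have h1 : Z s = ∑' n : ℕ, 1 / ((n : ℝ) + 1) ^ s := by
    unfold Z
    rw [(Z_sum hs).tsum_eq_zero_add, Nat.cast_zero, Real.zero_rpow (by linarith), zero_add]
    refine tsum_congr fun n => ?_
    push_cast
    rw [Real.rpow_neg (by positivity), one_div]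
  have h2 := ZetaAsymptotics.zeta_limit_aux1 hs
  have h3 : 0 ≤ ZetaAsymptotics.termTSum s :=
    tsum_nonneg fun n => ZetaAsymptotics.term_nonneg _ _
  have h4 : 0 ≤ s * ZetaAsymptotics.termTSum s := mul_nonneg (by linarith) h3
  rw [h1]
  linarith

section

variable {a : ℕ → ℝ} (h0 : 1 < a 0) (hm : StrictMono a) (hsep : Erdos951Prop a)
include h0 hm hsep

theorem recip_aux {x d : ℝ} (hx : 1 < x) (hd : 0 < d) (S : Finset ℕ) (hS : ∀ i ∈ S, a i ≤ x) :
    ∑ i ∈ S, 1 / a i ≤ Real.exp d * Real.log (1 + Real.log x / d) := by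
  have hL : 0 < Real.log x := Real.log_pos hx
  obtain ⟨s, hs⟩ : ∃ s : ℝ, s = 1 + d / Real.log x := ⟨_, rfl⟩
  have hs1 : 1 < s := by
    rw [hs]
    have : 0 < d / Real.log x := div_pos hd hL
    linarith
  have h1 : ∑ i ∈ S, F s (a i) ≤ Real.log (Z s) := by
    have h2 : S ⊆ range (S.sup id + 1) := fun i hi => by
      rw [mem_range]
      exact Nat.lt_succ_of_le (Finset.le_sup (f := id) hi)
    refine le_trans ?_ (sum_F_le h0 hm hsep hs1 (S.sup id + 1))
    exact sum_le_sum_of_subset_of_nonneg h2 fun i _ _ =>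
      (F_pos (by linarith) (gt_one h0 hm hsep i)).le
  have h3 : Real.log (Z s) ≤ Real.log (1 + Real.log x / d) := by
    refine Real.log_le_log (Z_pos hs1) ((Z_le hs1).trans (le_of_eq ?_))
    rw [hs]
    have : 1 + d / Real.log x - 1 = d / Real.log x := by ring
    rw [this, one_div_div]
  have h4 : ∀ i ∈ S, Real.exp (-d) * (1 / a i) ≤ F s (a i) := by
    intro i hi
    have ha := gt_one h0 hm hsep i
    refine le_trans ?_ (F_ge (by linarith) ha)
    have e1 : -s = -1 + -(d / Real.log x) := by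
      rw [hs]
      ring
    rw [e1, Real.rpow_add (by linarith), Real.rpow_neg_one, mul_comm, one_div]
    refine mul_le_mul_of_nonneg_left ?_ (by positivity)
    have h5 : x ^ (-(d / Real.log x)) ≤ a i ^ (-(d / Real.log x)) :=
      Real.rpow_le_rpow_of_nonpos (by linarith) (hS i hi)
        (by have : 0 < d / Real.log x := div_pos hd hL
            linarith)
    refine le_trans (le_of_eq ?_) h5
    rw [Real.rpow_def_of_pos (by linarith)]
    congr 1
    field_simp
  have h6 : Real.exp (-d) * ∑ i ∈ S, 1 / a i ≤ Real.log (1 + Real.log x / d) := by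
    rw [mul_sum]
    exact (sum_le_sum h4).trans (h1.trans h3)
  have h7 : ∑ i ∈ S, 1 / a i = Real.exp d * (Real.exp (-d) * ∑ i ∈ S, 1 / a i) := by
    rw [← mul_assoc, ← Real.exp_add, add_neg_cancel, Real.exp_zero, one_mul]
  rw [h7]
  exact mul_le_mul_of_nonneg_left h6 (Real.exp_pos _).le

theorem recip {x : ℝ} (hx : Real.exp (Real.exp 1) ≤ x) (S : Finset ℕ) (hS : ∀ i ∈ S, a i ≤ x) :
    ∑ i ∈ S, 1 / a i ≤ Real.log (Real.log x) + Real.log (Real.log (Real.log x)) + 7 := by
  have hx1 : 1 < x := by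
    have : 1 < Real.exp (Real.exp 1) := by
      rw [Real.one_lt_exp_iff]
      exact Real.exp_pos 1
    linarith
  obtain ⟨L, hL⟩ : ∃ L : ℝ, L = Real.log x := ⟨_, rfl⟩
  have hL1 : Real.exp 1 ≤ L := by
    rw [hL, ← Real.log_exp (Real.exp 1)]
    exact Real.log_le_log (Real.exp_pos _) hx
  obtain ⟨M, hM⟩ : ∃ M : ℝ, M = Real.log L := ⟨_, rfl⟩
  have he := Real.add_one_le_exp (1 : ℝ)
  have hLp : 0 < L := by linarith
  have hM1 : 1 ≤ M := by
    rw [hM, ← Real.log_exp 1]
    exact Real.log_le_log (Real.exp_pos _) hL1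
  rw [← hL, ← hM]
  have h1 := recip_aux h0 hm hsep hx1 (show 0 < 1 / M by positivity) S hS
  rw [← hL] at h1
  have hd : |1 / M| ≤ 1 := by
    rw [abs_of_pos (by positivity), div_le_one (by linarith)]
    exact hM1
  have h2 := (abs_le.1 (Real.abs_exp_sub_one_sub_id_le hd)).2
  have h3 : Real.exp (1 / M) ≤ 1 + 2 * (1 / M) := by
    have h4 : (1 / M) ^ 2 ≤ 1 / M := by
      have h5 : 0 < 1 / M := by positivity
      rw [abs_of_pos h5] at hd
      nlinarith
    linarith
  have hl0 : 0 ≤ Real.log M := Real.log_nonneg hM1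
  have h6 : Real.log (1 + L / (1 / M)) ≤ M + Real.log M + 1 := by
    have e1 : L / (1 / M) = L * M := by
      field_simp
    rw [e1]
    have e2 : 1 + L * M ≤ Real.exp 1 * (L * M) := by
      have : 1 ≤ L * M := by nlinarith
      nlinarith
    refine (Real.log_le_log (by positivity) e2).trans (le_of_eq ?_)
    rw [Real.log_mul (Real.exp_pos _).ne' (by positivity), Real.log_exp,
      Real.log_mul hLp.ne' (by positivity), ← hM]
    ring
  have h7 : 0 ≤ Real.log (1 + L / (1 / M)) := by
    refine Real.log_nonneg ?_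
    have : 0 ≤ L / (1 / M) := by positivity
    linarith
  have h8 : Real.log M ≤ M - 1 := Real.log_le_sub_one_of_pos (by linarith)
  calc ∑ i ∈ S, 1 / a i ≤ Real.exp (1 / M) * Real.log (1 + L / (1 / M)) := h1
    _ ≤ (1 + 2 * (1 / M)) * (M + Real.log M + 1) :=
      mul_le_mul h3 h6 h7 (by positivity)
    _ ≤ M + Real.log M + 7 := by
      have h9 : (1 + 2 * (1 / M)) * (M + Real.log M + 1) =
          M + Real.log M + 1 + 2 + 2 * ((Real.log M + 1) / M) := by
        field_simp
        ring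
      have h10 : (Real.log M + 1) / M ≤ 1 := by
        rw [div_le_one (by linarith)]
        linarith
      linarith

end

end Pool.Agent.NH50.E951
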