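import Pool.Agent.NH50.E951.B

/-!
# 1-separated sequences of integers and finite modifications of the primes
-/

set_option autoImplicit false

namespace Pool.Agent.NH50.E951

open Filter Finset N44b300f8

theorem sep_mem {a : ℕ → ℝ} (hsep : Erdos951Prop a) {u v : ℝ} (hu : u ∈ BeurlingIntegers a)
    (hv : v ∈ BeurlingIntegers a) (h : |u - v| < 1) : u = v := by
  obtain ⟨k, rfl⟩ := hu
  obtain ⟨l, rfl⟩ := hv
  by_contra hne
  have := hsep k l fun h => hne (by rw [h])
  linarith

/-- a natural number all of whose prime factors belong to the sequence is a Beurling integer -/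
theorem nat_mem {a : ℕ → ℝ} {B : ℕ} (hB : ∀ p : ℕ, p.Prime → B < p → ∃ i, a i = p) (m : ℕ)
    (hm0 : 0 < m) (hm : ∀ p : ℕ, p.Prime → p ≤ B → ¬ p ∣ m) : (m : ℝ) ∈ BeurlingIntegers a := by
  induction m using Nat.strong_induction_on with
  | _ m ih =>
    by_cases h1 : m = 1
    · rw [h1, Nat.cast_one]
      exact ⟨0, N_zero a⟩
    · have hp := Nat.minFac_prime h1
      obtain ⟨c, hc⟩ := Nat.minFac_dvd m
      have hBp : B < m.minFac := by
        by_contra h
        exact hm _ hp (not_lt.1 h) (Nat.minFac_dvd m)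
      obtain ⟨i, hi⟩ := hB _ hp hBp
      have hc0 : 0 < c := by
        rcases Nat.eq_zero_or_pos c with h | h
        · rw [h, mul_zero] at hc
          omega
        · exact h
      have hcm : c < m := by
        have h2 := hp.two_le
        calc c < 2 * c := by omega
          _ ≤ m.minFac * c := Nat.mul_le_mul_right _ h2
          _ = m := hc.symm
      have h3 := ih c hcm hc0 fun p hp' hpB hpc => hm p hp' hpB (hc ▸ hpc.mul_left _)
      have h4 := mul_mem_beurling (generator_mem_beurling a i) h3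
      rw [hi, ← Nat.cast_mul, ← hc] at h4
      exact h4

theorem irr_case {a : ℕ → ℝ} (hsep : Erdos951Prop a) {B : ℕ}
    (hB : ∀ p : ℕ, p.Prime → B < p → ∃ i, a i = p) (i : ℕ) (hi : 2 ≤ a i) :
    ¬ Irrational (a i) := by
  intro hirr
  obtain ⟨P, hP⟩ : ∃ P : ℕ, P = (B + 2).factorial := ⟨_, rfl⟩
  have hP0 : (0 : ℝ) < P := by rw [hP]; exact_mod_cast Nat.factorial_pos (B + 2)
  have hP2 : 2 ≤ P := by
    rw [hP]
    exact (show 2 ≤ B + 2 by omega).trans (Nat.self_le_factorial _)
  have hd : Dense (AddSubgroup.closure {a i, (1 : ℝ)} : Set ℝ) := by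
    rw [dense_addSubgroupClosure_pair_iff, div_one]
    exact hirr
  obtain ⟨z, hz, hz2⟩ := hd.exists_dist_lt ((1 - a i) / P) (show 0 < 1 / (P : ℝ) by positivity)
  rw [SetLike.mem_coe, AddSubgroup.mem_closure_pair] at hz
  obtain ⟨j, l, hjl⟩ := hz
  rw [zsmul_eq_mul, zsmul_eq_mul, mul_one] at hjl
  rw [Real.dist_eq, ← hjl] at hz2
  have h1 : |a i * ((1 + P * j : ℤ) : ℝ) - ((1 - P * l : ℤ) : ℝ)| < 1 := by
    have e : a i * ((1 + P * j : ℤ) : ℝ) - ((1 - P * l : ℤ) : ℝ) =
        -(P * ((1 - a i) / P - ((j : ℝ) * a i + l))) := by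
      push_cast
      field_simp
      ring
    rw [e, abs_neg, abs_mul, abs_of_pos hP0]
    calc (P : ℝ) * |(1 - a i) / P - ((j : ℝ) * a i + l)| < P * (1 / P) :=
          mul_lt_mul_of_pos_left hz2 hP0
      _ = 1 := by field_simp
  have key : ∀ t : ℤ, ∀ p : ℕ, p.Prime → p ≤ B → ¬ p ∣ (1 + P * t : ℤ).natAbs := by
    intro t p hp hpB hdvd
    have h2 : (p : ℤ) ∣ (1 + P * t : ℤ) := Int.natCast_dvd.2 hdvd
    have h3 : (p : ℤ) ∣ (P : ℤ) := by
      rw [hP]
      exact_mod_cast (hp.dvd_factorial).2 (show p ≤ B + 2 by omega)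
    have h4 : (p : ℤ) ∣ 1 := by
      have := dvd_sub h2 (h3.mul_right t)
      simpa using this
    have h5 : p ∣ 1 := by exact_mod_cast h4
    exact hp.one_lt.ne' (Nat.dvd_one.1 h5)
  have hne : ∀ t : ℤ, (1 + P * t : ℤ) ≠ 0 := by
    intro t h
    have h2 : (P : ℤ) ∣ 1 := ⟨-t, by linarith⟩
    have h3 : P ∣ 1 := by exact_mod_cast h2
    rw [Nat.dvd_one] at h3
    omega
  have hn' : (1 - P * l : ℤ) = 1 + P * (-l) := by ring
  rw [hn'] at h1
  have hm0 := hne j
  have hn0 := hne (-l)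
  have hkm := key j
  have hkn := key (-l)
  generalize (1 + P * j : ℤ) = m at h1 hm0 hkm
  generalize (1 + P * (-l) : ℤ) = n at h1 hn0 hkn
  have hmem : ∀ z : ℤ, z ≠ 0 → (∀ p : ℕ, p.Prime → p ≤ B → ¬ p ∣ z.natAbs) →
      (z.natAbs : ℝ) ∈ BeurlingIntegers a :=
    fun z hz hk => nat_mem hB _ (Int.natAbs_pos.2 hz) hk
  have h2 : |a i * (m.natAbs : ℝ) - (n.natAbs : ℝ)| < 1 := by
    rw [Nat.cast_natAbs, Nat.cast_natAbs, Int.cast_abs, Int.cast_abs]
    rw [abs_lt] at h1
    rcases lt_or_gt_of_ne hm0 with h | h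
    · have h3 : (m : ℝ) ≤ -1 := by exact_mod_cast (show m ≤ -1 by omega)
      have h4 : (n : ℝ) < 0 := by nlinarith
      rw [abs_of_neg (show (m : ℝ) < 0 by linarith), abs_of_neg h4, abs_lt]
      constructor <;> linarith
    · have h3 : (1 : ℝ) ≤ m := by exact_mod_cast (show 1 ≤ m by omega)
      have h4 : (0 : ℝ) < n := by nlinarith
      rw [abs_of_pos (show (0 : ℝ) < m by linarith), abs_of_pos h4, abs_lt]
      constructor <;> linarith
  have h5 := sep_mem hsep (mul_mem_beurling (generator_mem_beurling a i) (hmem m hm0 hkm))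
    (hmem n hn0 hkn) h2
  have hmp : (0 : ℝ) < m.natAbs := by exact_mod_cast Int.natAbs_pos.2 hm0
  refine hirr ⟨(n.natAbs : ℚ) / (m.natAbs : ℚ), ?_⟩
  push_cast
  rw [← h5]
  field_simp

/-- the local condition -/
theorem loc (p : ℕ) (hp : p.Prime) (b q r : ℕ) (hbq : b.Coprime q) (m0 n0 : ℤ)
    (h : (b : ℤ) * m0 - q * n0 = r) (h1 : p ∣ b * q → ¬ p ∣ r)
    (h2 : ¬ 2 ∣ b * q → 2 ∣ r) :
    ∃ t : ℕ, ¬ (p : ℤ) ∣ m0 + q * t ∧ ¬ (p : ℤ) ∣ n0 + b * t := by
  have hpi : Prime (p : ℤ) := Nat.prime_iff_prime_int.1 hp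
  have hcop : ¬ ((p : ℤ) ∣ b ∧ (p : ℤ) ∣ q) := by
    rintro ⟨h3, h4⟩
    have h5 : p ∣ Nat.gcd b q := Nat.dvd_gcd (by exact_mod_cast h3) (by exact_mod_cast h4)
    rw [hbq] at h5
    exact hp.one_lt.ne' (Nat.dvd_one.1 h5)
  by_cases hpq : (p : ℤ) ∣ q
  · have hpb : ¬ (p : ℤ) ∣ b := fun h => hcop ⟨h, hpq⟩
    have hpr : ¬ (p : ℤ) ∣ r := by
      intro h3
      exact h1 ((by exact_mod_cast hpq : p ∣ q).mul_left b) (by exact_mod_cast h3)
    have hm0 : ¬ (p : ℤ) ∣ m0 := fun h3 => hpr (h ▸ dvd_sub (h3.mul_left _) (hpq.mul_right _))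
    have hmt : ∀ t : ℕ, ¬ (p : ℤ) ∣ m0 + q * t := fun t h3 =>
      hm0 ((dvd_add_left (hpq.mul_right _)).1 h3)
    by_cases hn : (p : ℤ) ∣ n0
    · refine ⟨1, hmt 1, fun h3 => hpb ?_⟩
      have := (dvd_add_right hn).1 h3
      rwa [Nat.cast_one, mul_one] at this
    · refine ⟨0, hmt 0, ?_⟩
      rwa [Nat.cast_zero, mul_zero, add_zero]
  · by_cases hpb : (p : ℤ) ∣ b
    · have hpr : ¬ (p : ℤ) ∣ r := by
        intro h3
        exact h1 ((by exact_mod_cast hpb : p ∣ b).mul_right q) (by exact_mod_cast h3)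
      have hn0 : ¬ (p : ℤ) ∣ n0 := fun h3 => hpr (h ▸ dvd_sub (hpb.mul_right _) (h3.mul_left _))
      have hnt : ∀ t : ℕ, ¬ (p : ℤ) ∣ n0 + b * t := fun t h3 =>
        hn0 ((dvd_add_left (hpb.mul_right _)).1 h3)
      by_cases hm : (p : ℤ) ∣ m0
      · refine ⟨1, fun h3 => hpq ?_, hnt 1⟩
        have := (dvd_add_right hm).1 h3
        rwa [Nat.cast_one, mul_one] at this
      · refine ⟨0, ?_, hnt 0⟩
        rwa [Nat.cast_zero, mul_zero, add_zero]
    · have hpbq : ¬ p ∣ b * q := by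
        intro h3
        rcases (Nat.Prime.dvd_mul hp).1 h3 with h4 | h4
        · exact hpb (by exact_mod_cast h4)
        · exact hpq (by exact_mod_cast h4)
      by_cases hp2 : p = 2
      · subst hp2
        have h3 := h2 hpbq
        have hq1 : (q : ℤ) % 2 = 1 := by
          have : ¬ (2 : ℤ) ∣ q := hpq
          omega
        have hb1 : (b : ℤ) % 2 = 1 := by
          have : ¬ (2 : ℤ) ∣ b := hpb
          omega
        have hr : ((b : ℤ) * m0 - q * n0) % 2 = 0 := by
          rw [h]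
          have : (2 : ℤ) ∣ r := by exact_mod_cast h3
          omega
        have hmn : (m0 - n0) % 2 = 0 := by
          have e1 : ((b : ℤ) * m0 - q * n0) % 2 = ((b : ℤ) % 2 * (m0 % 2) - (q : ℤ) % 2 * (n0 % 2)) % 2 := by
            rw [Int.sub_emod, Int.mul_emod, Int.mul_emod (q : ℤ) n0, ← Int.sub_emod]
          rw [e1, hq1, hb1, one_mul, one_mul] at hr
          omega
        by_cases hm : (2 : ℤ) ∣ m0
        · refine ⟨1, ?_, ?_⟩
          · push_cast
            omega
          · push_cast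
            omega
        · refine ⟨0, ?_, ?_⟩
          · push_cast
            omega
          · push_cast
            omega
      · have hp3 : 3 ≤ p := by
          have := hp.two_le
          omega
        have huniq : ∀ (c d : ℤ), ¬ (p : ℤ) ∣ d → ∀ s t : ℕ, s < t → t < 3 →
            (p : ℤ) ∣ c + d * s → (p : ℤ) ∣ c + d * t → False := by
          intro c d hd s t hst ht h3 h4
          have h5 : (p : ℤ) ∣ d * ((t : ℤ) - s) := by
            have := dvd_sub h4 h3
            have e : c + d * t - (c + d * s) = d * ((t : ℤ) - s) := by ring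
            rwa [e] at this
          rcases hpi.dvd_or_dvd h5 with h6 | h6
          · exact hd h6
          · have h7 := Int.le_of_dvd (by omega) h6
            omega
        by_contra hcon
        push Not at hcon
        have c0 := hcon 0
        have c1 := hcon 1
        have c2 := hcon 2
        by_cases a0 : (p : ℤ) ∣ m0 + q * (0 : ℕ)
        · have a1 : ¬ (p : ℤ) ∣ m0 + q * (1 : ℕ) := fun h =>
            huniq m0 q hpq 0 1 (by omega) (by omega) a0 h
          have a2 : ¬ (p : ℤ) ∣ m0 + q * (2 : ℕ) := fun h =>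
            huniq m0 q hpq 0 2 (by omega) (by omega) a0 h
          exact huniq n0 b hpb 1 2 (by omega) (by omega) (c1 a1) (c2 a2)
        · have b0 := c0 a0
          by_cases a1 : (p : ℤ) ∣ m0 + q * (1 : ℕ)
          · have a2 : ¬ (p : ℤ) ∣ m0 + q * (2 : ℕ) := fun h =>
              huniq m0 q hpq 1 2 (by omega) (by omega) a1 h
            exact huniq n0 b hpb 0 2 (by omega) (by omega) b0 (c2 a2)
          · exact huniq n0 b hpb 0 1 (by omega) (by omega) b0 (c1 a1)

theorem rat_case {a : ℕ → ℝ} (hsep : Erdos951Prop a) {B : ℕ}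
    (hB : ∀ p : ℕ, p.Prime → B < p → ∃ i, a i = p) (i : ℕ) (b q : ℕ)
    (hbq : b.Coprime q) (hq : 0 < q) (hb : 0 < b) (h : a i * q = b) : q = 1 := by
  by_contra hq1
  have hq2 : 2 ≤ q := by omega
  obtain ⟨r, hr0, hrq, hr1, hr2⟩ : ∃ r : ℕ, 0 < r ∧ r < q ∧
      (∀ p : ℕ, p.Prime → p ∣ b * q → ¬ p ∣ r) ∧ (¬ 2 ∣ b * q → 2 ∣ r) := by
    by_cases he : 2 ∣ b * q
    · exact ⟨1, one_pos, by omega, fun p hp _ h => hp.one_lt.ne' (Nat.dvd_one.1 h),
        fun h => absurd he h⟩
    · have hq3 : q ≠ 2 := fun h => he (h ▸ dvd_mul_left _ _)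
      refine ⟨2, two_pos, by omega, fun p hp hpd h => ?_, fun _ => dvd_rfl⟩
      rw [(Nat.prime_dvd_prime_iff_eq hp Nat.prime_two).1 h] at hpd
      exact he hpd
  obtain ⟨m0, n0, hmn⟩ : ∃ m0 n0 : ℤ, (b : ℤ) * m0 - q * n0 = r := by
    have h1 := Nat.gcd_eq_gcd_ab b q
    rw [hbq] at h1
    refine ⟨r * Nat.gcdA b q, -(r * Nat.gcdB b q), ?_⟩
    have : (b : ℤ) * (r * Nat.gcdA b q) - q * -(r * Nat.gcdB b q) =
        r * (b * Nat.gcdA b q + q * Nat.gcdB b q) := by ring
    rw [this, ← h1]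
    push_cast
    ring
  have hloc : ∀ p : ℕ, ∃ t : ℕ, p.Prime → ¬ (p : ℤ) ∣ m0 + q * t ∧ ¬ (p : ℤ) ∣ n0 + b * t := by
    intro p
    by_cases hp : p.Prime
    · obtain ⟨t, ht⟩ := loc p hp b q r hbq m0 n0 hmn (hr1 p hp) hr2
      exact ⟨t, fun _ => ht⟩
    · exact ⟨0, fun h => absurd h hp⟩
  choose f hf using hloc
  obtain ⟨k, hk⟩ := Nat.chineseRemainderOfFinset f id ((range (B + 1)).filter Nat.Prime)
    (fun p hp => by
      rw [mem_filter] at hp
      exact hp.2.ne_zero)
    (fun p hp p' hp' hne => by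
      rw [Finset.mem_coe, mem_filter] at hp hp'
      exact (Nat.coprime_primes hp.2 hp'.2).2 hne)
  obtain ⟨t, ht⟩ : ∃ t : ℕ, t = k + B.factorial * (m0.natAbs + n0.natAbs + 1) := ⟨_, rfl⟩
  have ht1 : m0.natAbs + n0.natAbs + 1 ≤ t := by
    rw [ht]
    have := Nat.factorial_pos B
    nlinarith
  have hmt : 0 < m0 + q * t := by
    have h1 : (t : ℤ) ≤ q * t := by
      have : (1 : ℤ) ≤ q := by omega
      nlinarith
    omega
  have hnt : 0 < n0 + b * t := by
    have h1 : (t : ℤ) ≤ b * t := by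
      have : (1 : ℤ) ≤ b := by omega
      nlinarith
    omega
  have hdv : ∀ p : ℕ, p.Prime → p ≤ B → ¬ (p : ℤ) ∣ m0 + q * t ∧ ¬ (p : ℤ) ∣ n0 + b * t := by
    intro p hp hpB
    have h1 := hk p (by rw [mem_filter, mem_range]; exact ⟨by omega, hp⟩)
    have h2 : (p : ℤ) ∣ (t : ℤ) - f p := by
      have h3 : (p : ℤ) ∣ (k : ℤ) - f p := by
        have := (Nat.modEq_iff_dvd.1 h1.symm)
        exact this
      have h4 : (p : ℤ) ∣ ((B.factorial * (m0.natAbs + n0.natAbs + 1) : ℕ) : ℤ) := by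
        have h5 : p ∣ B.factorial * (m0.natAbs + n0.natAbs + 1) :=
          (hp.dvd_factorial.2 hpB).mul_right _
        exact_mod_cast h5
      have e : (t : ℤ) - f p = ((k : ℤ) - f p) +
          ((B.factorial * (m0.natAbs + n0.natAbs + 1) : ℕ) : ℤ) := by
        rw [ht]
        push_cast
        ring
      rw [e]
      exact dvd_add h3 h4
    obtain ⟨g1, g2⟩ := hf p hp
    constructor
    · intro h3
      apply g1
      have e : m0 + q * (f p : ℤ) = (m0 + q * t) - q * ((t : ℤ) - f p) := by ring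
      rw [e]
      exact dvd_sub h3 (h2.mul_left _)
    · intro h3
      apply g2
      have e : n0 + b * (f p : ℤ) = (n0 + b * t) - b * ((t : ℤ) - f p) := by ring
      rw [e]
      exact dvd_sub h3 (h2.mul_left _)
  obtain ⟨m, hm⟩ := Int.eq_ofNat_of_zero_le hmt.le
  obtain ⟨n, hn⟩ := Int.eq_ofNat_of_zero_le hnt.le
  have hrel : (b : ℤ) * m - q * n = r := by
    rw [← hm, ← hn, ← hmn]
    ring
  have hmm := nat_mem hB m (by omega) fun p hp hpB h1 => (hdv p hp hpB).1 (by
    rw [hm]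
    exact_mod_cast h1)
  have hnn := nat_mem hB n (by omega) fun p hp hpB h1 => (hdv p hp hpB).2 (by
    rw [hn]
    exact_mod_cast h1)
  have hrelR : (b : ℝ) * m - q * n = r := by exact_mod_cast hrel
  have hqR : (0 : ℝ) < q := by exact_mod_cast hq
  have hval : a i * m - n = r / q := by
    rw [eq_div_iff hqR.ne', ← hrelR, ← h]
    ring
  have hlt : |a i * (m : ℝ) - (n : ℝ)| < 1 := by
    rw [hval, abs_of_pos (by positivity), div_lt_one hqR]
    exact_mod_cast hrq
  have heq := sep_mem hsep (mul_mem_beurling (generator_mem_beurling a i) hmm) hnn hlt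
  rw [heq, sub_self] at hval
  have : (0 : ℝ) < r / q := by positivity
  linarith

theorem int_val {a : ℕ → ℝ} (h0 : 1 < a 0) (hm : StrictMono a) (hsep : Erdos951Prop a) {B : ℕ}
    (hB : ∀ p : ℕ, p.Prime → B < p → ∃ i, a i = p) (i : ℕ) : ∃ n : ℕ, a i = n := by
  have hi : 2 ≤ a i := by
    have := ge_two h0 hm hsep i
    have h : (0 : ℝ) ≤ i := Nat.cast_nonneg i
    linarith
  have h1 := irr_case hsep hB i hi
  unfold Irrational at h1
  rw [not_not] at h1
  obtain ⟨x, hx⟩ := h1
  have hx0 : 0 < x := by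
    have : (0 : ℝ) < (x : ℝ) := by
      rw [hx]
      linarith
    exact_mod_cast this
  have hnum : 0 < x.num := Rat.num_pos.2 hx0
  have e : a i * (x.den : ℝ) = (x.num.natAbs : ℝ) := by
    have h2 : (x : ℝ) = (x.num : ℝ) / (x.den : ℝ) := Rat.cast_def x
    have h3 : (0 : ℝ) < (x.den : ℝ) := by exact_mod_cast x.den_pos
    rw [← hx, h2, div_mul_cancel₀ _ h3.ne', Nat.cast_natAbs, abs_of_pos hnum]
  have h4 := rat_case hsep hB i x.num.natAbs x.den x.reduced x.den_pos
    (Int.natAbs_pos.2 hnum.ne') e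
  rw [h4, Nat.cast_one, mul_one] at e
  exact ⟨_, e⟩

/-- 1-separated sequences of integers -/
theorem int_count {a : ℕ → ℝ} (h0 : 1 < a 0) (hm : StrictMono a) (hsep : Erdos951Prop a)
    (hint : ∀ i, ∃ n : ℕ, a i = n) (x : ℕ) : cnt a x ≤ Nat.primeCounting x := by
  choose b hb using hint
  have hge : ∀ i, 2 ≤ b i := fun i => by
    have h1 := ge_two h0 hm hsep i
    have h : (0 : ℝ) ≤ i := Nat.cast_nonneg i
    rw [hb] at h1
    exact_mod_cast (show (2 : ℝ) ≤ b i by linarith)
  have hq : cnt (fun i => (q i : ℝ)) x = Nat.primeCounting x := by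
    rw [cnt_q x (Nat.cast_nonneg x), Nat.floor_natCast]
  rw [← hq]
  obtain ⟨N, hN⟩ : ∃ N, N = cnt a x := ⟨_, rfl⟩
  obtain ⟨M, hM⟩ : ∃ M, M = cnt (fun i => (q i : ℝ)) x := ⟨_, rfl⟩
  rw [← hN, ← hM]
  obtain ⟨A, hA⟩ : ∃ A : Matrix (Fin M) (Fin N) ℤ,
      ∀ j i, A j i = ((b i.val).factorization (q j.val) : ℤ) := ⟨fun j i => _, fun _ _ => rfl⟩
  refine le_of_fin_injective ℤ A.mulVecLin ?_
  rw [injective_iff_map_eq_zero]
  intro t ht
  rw [Matrix.mulVecLin_apply] at ht
  have ht' : ∀ j : Fin M, ∑ i : Fin N, ((b i.val).factorization (q j.val) : ℤ) * t i = 0 := by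
    intro j
    have := congrFun ht j
    rw [Matrix.mulVec, dotProduct, Pi.zero_apply] at this
    rw [← this]
    exact sum_congr rfl fun i _ => by rw [hA]
  have hprod : ∏ i : Fin N, b i.val ^ (t i).toNat = ∏ i : Fin N, b i.val ^ (-t i).toNat := by
    refine Nat.eq_of_factorization_eq (prod_ne_zero_iff.2 fun i _ => pow_ne_zero _ (by
      have := hge i.val
      omega)) (prod_ne_zero_iff.2 fun i _ => pow_ne_zero _ (by
      have := hge i.val
      omega)) fun p => ?_
    rw [Nat.factorization_prod fun i _ => pow_ne_zero _ (by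
        have := hge i.val
        omega), Nat.factorization_prod fun i _ => pow_ne_zero _ (by
        have := hge i.val
        omega), Finsupp.finsetSum_apply, Finsupp.finsetSum_apply]
    simp only [Nat.factorization_pow, Finsupp.smul_apply, smul_eq_mul]
    by_cases hp : p.Prime
    · by_cases hpx : p ≤ x
      · have hj : Nat.count Nat.Prime p < M := by
          rw [hM, lt_cnt qr_mono qr_ge]
          have : q (Nat.count Nat.Prime p) = p := Nat.nth_count hp
          rw [this]
          exact_mod_cast hpx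
        have h1 := ht' ⟨_, hj⟩
        have h2 : q (Nat.count Nat.Prime p) = p := Nat.nth_count hp
        dsimp only at h1
        rw [h2] at h1
        have h3 : ((∑ i : Fin N, (t i).toNat * (b i.val).factorization p : ℕ) : ℤ) =
            ((∑ i : Fin N, (-t i).toNat * (b i.val).factorization p : ℕ) : ℤ) := by
          rw [← sub_eq_zero]
          push_cast
          rw [← sum_sub_distrib, ← h1]
          refine sum_congr rfl fun i _ => ?_
          rw [← sub_mul, mul_comm]
          congr 1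
          omega
        exact_mod_cast h3
      · refine sum_congr rfl fun i _ => ?_
        have h4 : (b i.val).factorization p = 0 := by
          refine Nat.factorization_eq_zero_of_lt ?_
          have h5 : a i.val ≤ x := by
            rw [← lt_cnt hm (ge_two h0 hm hsep), ← hN]
            exact i.isLt
          rw [hb] at h5
          have h6 : b i.val ≤ x := by exact_mod_cast h5
          omega
        rw [h4, mul_zero, mul_zero]
    · refine sum_congr rfl fun i _ => ?_
      rw [Nat.factorization_eq_zero_of_not_prime _ hp, mul_zero, mul_zero]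
  have hN1 : beurlingInteger a (phi fun i : Fin N => (t i).toNat) =
      beurlingInteger a (phi fun i : Fin N => (-t i).toNat) := by
    rw [N_phi, N_phi]
    have h5 : ((∏ i : Fin N, b i.val ^ (t i).toNat : ℕ) : ℝ) =
        ((∏ i : Fin N, b i.val ^ (-t i).toNat : ℕ) : ℝ) := by rw [hprod]
    push_cast at h5
    simp only [hb]
    exact h5
  have hkl : (fun i : Fin N => (t i).toNat) = fun i : Fin N => (-t i).toNat := by
    apply phi_inj
    by_contra hne
    have := hsep _ _ hne
    rw [hN1, sub_self, abs_zero] at this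
    linarith
  funext i
  have := congrFun hkl i
  rw [Pi.zero_apply]
  omega

end Pool.Agent.NH50.E951
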